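import Pool.Agent.Helper38.IA.StN

/-!
# Project IA, part N (MP_953b28_co), module NCH: what changes when one coordinate changes
-/

set_option autoImplicit false

namespace Pool.Agent.Helper78.IA38

open Finset Pool.Agent.Helper93.IA Pool.Agent.Helper17.IAN Pool.Agent.Helper38.IA

variable {α β γ : Type}

private theorem used_congr (σ τ : α × β → Option γ) (a : α) (b : β) (c : γ)
    (h1 : ∀ b', σ (a, b') = some c ↔ τ (a, b') = some c)
    (h2 : ∀ a', σ (a', b) = some c ↔ τ (a', b) = some c) : used σ a b c ↔ used τ a b c := by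
  unfold used
  constructor
  · rintro ⟨e1, e2, e3⟩
    exact ⟨(h1 b).1 e1, fun b' hb' h => e2 b' hb' ((h1 b').2 h),
      fun a' ha' h => e3 a' ha' ((h2 a').2 h)⟩
  · rintro ⟨e1, e2, e3⟩
    exact ⟨(h1 b).2 e1, fun b' hb' h => e2 b' hb' ((h1 b').1 h),
      fun a' ha' h => e3 a' ha' ((h2 a').1 h)⟩

variable [DecidableEq α] [DecidableEq β]

private theorem up_ne (σ : α × β → Option γ) (a0 a : α) (b0 b : β) (v : Option γ)
    (h : a ≠ a0 ∨ b ≠ b0) : Function.update σ (a0, b0) v (a, b) = σ (a, b) := by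
  refine Function.update_of_ne (fun he => ?_) _ _
  obtain ⟨e1, e2⟩ := Prod.mk.inj he
  rcases h with h | h
  · exact h e1
  · exact h e2

private theorem up_self (σ : α × β → Option γ) (a0 : α) (b0 : β) (v : Option γ) :
    Function.update σ (a0, b0) v (a0, b0) = v := Function.update_self _ _ _

private theorem some_iff (σ : α × β → Option γ) (a0 a : α) (b0 b : β) (u c : γ) (h : c ≠ u) :
    Function.update σ (a0, b0) (some u) (a, b) = some c ↔
      Function.update σ (a0, b0) none (a, b) = some c := by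
  by_cases ha : a = a0 ∧ b = b0
  · obtain ⟨rfl, rfl⟩ := ha
    rw [up_self, up_self]
    constructor
    · intro h1
      exact absurd (Option.some.inj h1).symm h
    · intro h1
      exact absurd h1.symm (Option.some_ne_none c)
  · have ha' : a ≠ a0 ∨ b ≠ b0 := by
      by_contra hc
      push Not at hc
      exact ha hc
    rw [up_ne _ _ _ _ _ _ ha', up_ne _ _ _ _ _ _ ha']

private theorem claim (σ : α × β → Option γ) (a0 a : α) (b0 b : β) (u c : γ)
    (h : ¬ (used (Function.update σ (a0, b0) (some u)) a b c ↔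
      used (Function.update σ (a0, b0) none) a b c)) :
    c = u ∧ ((a = a0 ∧ b = b0) ∨ (a = a0 ∧ used (Function.update σ (a0, b0) none) a0 b u) ∨
      (b = b0 ∧ used (Function.update σ (a0, b0) none) a b0 u)) := by
  by_cases hc : c = u
  · subst hc
    refine ⟨rfl, ?_⟩
    by_cases ha : a = a0
    · by_cases hb : b = b0
      · exact Or.inl ⟨ha, hb⟩
      · subst ha
        right; left
        refine ⟨rfl, ?_⟩
        by_contra h0
        refine h (iff_of_false (fun h1 => ?_) h0)
        exact h1.2.1 b0 (fun e => hb e.symm) (up_self σ a b0 (some c))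
    · by_cases hb : b = b0
      · subst hb
        right; right
        refine ⟨rfl, ?_⟩
        by_contra h0
        refine h (iff_of_false (fun h1 => ?_) h0)
        exact h1.2.2 a0 (fun e => ha e.symm) (up_self σ a0 b (some c))
      · refine absurd (used_congr _ _ a b c (fun b' => ?_) (fun a' => ?_)) h
        · rw [up_ne _ _ _ _ _ _ (Or.inl ha), up_ne _ _ _ _ _ _ (Or.inl ha)]
        · rw [up_ne _ _ _ _ _ _ (Or.inr hb), up_ne _ _ _ _ _ _ (Or.inr hb)]
  · exact absurd (used_congr _ _ a b c (fun b' => some_iff σ a0 a b0 b' u c hc)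
      (fun a' => some_iff σ a0 a' b0 b u c hc)) h

private theorem ex_change {ι : Type} (p q : ι → Prop) (h : ¬ ((∃ i, p i) ↔ ∃ i, q i)) :
    ∃ i, ¬ (p i ↔ q i) := by
  by_contra hc
  push Not at hc
  exact h (exists_congr hc)

theorem hNCH : StNCH := by
  intro α β γ _ _ σ a0 b0 u
  refine ⟨?_, ?_, ?_, ?_, ?_, ?_, ?_⟩
  · intro a b h
    obtain ⟨c, hc⟩ := ex_change _ _ h
    obtain ⟨-, h1 | h1 | h1⟩ := claim σ a0 a b0 b u c hc
    · exact Or.inl ⟨h1.1, Or.inl h1.2⟩
    · exact Or.inl ⟨h1.1, Or.inr h1.2⟩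
    · exact Or.inr h1
  · intro b c h
    obtain ⟨a, ha⟩ := ex_change _ _ h
    obtain ⟨hc, h1 | h1 | h1⟩ := claim σ a0 a b0 b u c ha
    · exact ⟨hc, Or.inl h1.2⟩
    · exact ⟨hc, Or.inr h1.2⟩
    · exact ⟨hc, Or.inl h1.1⟩
  · intro c a h
    obtain ⟨b, hb⟩ := ex_change _ _ h
    obtain ⟨hc, h1 | h1 | h1⟩ := claim σ a0 a b0 b u c hb
    · exact ⟨hc, Or.inl h1.1⟩
    · exact ⟨hc, Or.inl h1.1⟩
    · exact ⟨hc, Or.inr h1.2⟩
  · intro b b' h h'
    by_contra hne
    exact h.2.1 b' (fun e => hne e.symm) h'.1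
  · intro a a' h h'
    by_contra hne
    exact h.2.2 a' (fun e => hne e.symm) h'.1
  · intro b h
    have hb : b ≠ b0 := by
      rintro rfl
      have h1 := h.1
      rw [up_self] at h1
      exact Option.some_ne_none u h1.symm
    refine ⟨hb, ?_⟩
    rw [← up_ne σ a0 a0 b0 b none (Or.inr hb)]
    exact h.1
  · intro a h
    have ha : a ≠ a0 := by
      rintro rfl
      have h1 := h.1
      rw [up_self] at h1
      exact Option.some_ne_none u h1.symm
    refine ⟨ha, ?_⟩
    rw [← up_ne σ a0 a b0 b0 none (Or.inl ha)]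
    exact h.1

end Pool.Agent.Helper78.IA38
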